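import Pool.Agent.W663.IA.GammaDef

set_option autoImplicit false

namespace Pool.Agent.Results.MP_a818c9_an.FGInnerAmenableNotGamma

open Pool.Agent.Helper436.SN

/-- There is a finitely generated icc inner amenable group `G` such that `L(G)` does not have
property Gamma. -/
theorem result : ∃ (G : Type) (_ : Group G), Group.FG G ∧ IsICC G ∧ InnerAmenable G ∧
    ¬ Pool.Agent.W663.IA.GroupGamma G :=
  Pool.Agent.W663.IA.main2

end Pool.Agent.Results.MP_a818c9_an.FGInnerAmenableNotGamma
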